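import Mathlib
import Pool.Agent.Helper97.LCY.OInf

/-!
MP_f7e214_ag, block GENUS0: a function `s` of minimal degree on a curve.
If `b` is integral over `ℂ[s]` and `b / s` is integral over `ℂ[1/s]`, but `b` is not a rational
function of `s`, then there is a function `f` of smaller degree.
-/

open Polynomial

namespace LCY

noncomputable section

section

variable {E : Type*} [Field E] [Algebra ℂ E]

theorem minDeg_core (s f : E) (k : ℕ) (b0 : ℂ) (p : ℕ → ℂ[X])
    (hdeg : ∀ i, i ≤ k → (p i).natDegree ≤ k - i) (hpk : p k = 1)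
    (hrel0 : ∑ i ∈ Finset.range (k + 1), (p i).eval 0 * b0 ^ i = 0)
    (hrel : ∑ i ∈ Finset.range (k + 1),
      aeval s (p i) * (algebraMap ℂ E b0 + f * s) ^ i = 0)
    (hf : Transcendental ℂ f) (hs : s ≠ 0) :
    ∃ P : (IntermediateField.adjoin ℂ {f})[X], P ≠ 0 ∧ P.natDegree + 1 ≤ k ∧ aeval s P = 0 := by
  classical
  set M := IntermediateField.adjoin ℂ {f} with hM
  let f' : M := ⟨f, IntermediateField.mem_adjoin_simple_self ℂ f⟩
  have hf'f : algebraMap M E f' = f := rfl
  let G : M[X] := ∑ i ∈ Finset.range (k + 1),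
    (p i).map (algebraMap ℂ M) * (C (algebraMap ℂ M b0) + C f' * X) ^ i
  have hG0 : G.coeff 0 = 0 := by
    rw [coeff_zero_eq_eval_zero]
    simp only [G, eval_finsetSum, eval_mul, eval_pow, eval_add, eval_C, eval_X, mul_zero, add_zero]
    have : ∀ i, eval 0 ((p i).map (algebraMap ℂ M)) = algebraMap ℂ M ((p i).eval 0) := by
      intro i
      rw [eval_map, eval₂_at_zero, coeff_zero_eq_eval_zero]
    simp only [this]
    have h0 := congrArg (algebraMap ℂ M) hrel0
    simpa only [map_sum, map_mul, map_pow, map_zero] using h0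
  have hlin : (C (algebraMap ℂ M b0) + C f' * X : M[X]).natDegree ≤ 1 := by
    compute_degree
  have hlinc : (C (algebraMap ℂ M b0) + C f' * X : M[X]).coeff 1 = f' := by
    simp [coeff_C]
  have hdegi : ∀ i, i ≤ k →
      ((p i).map (algebraMap ℂ M)).natDegree ≤ k - i := fun i hi =>
    (natDegree_map_le).trans (hdeg i hi)
  have hpow : ∀ i, ((C (algebraMap ℂ M b0) + C f' * X : M[X]) ^ i).natDegree ≤ i := by
    intro i
    refine (natDegree_pow_le_of_le i hlin).trans (by simp)
  have hGdeg : G.natDegree ≤ k := by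
    refine natDegree_sum_le_of_forall_le _ _ ?_
    intro i hi
    have hi' : i ≤ k := by simpa [Nat.lt_succ_iff] using Finset.mem_range.1 hi
    refine (natDegree_mul_le_of_le (hdegi i hi') (hpow i)).trans (by omega)
  have hGk : G.coeff k = aeval f' (∑ i ∈ Finset.range (k + 1), C ((p i).coeff (k - i)) * X ^ i) := by
    simp only [G, finsetSum_coeff, map_sum, map_mul, map_pow, aeval_C, aeval_X]
    refine Finset.sum_congr rfl ?_
    intro i hi
    have hi' : i ≤ k := by simpa [Nat.lt_succ_iff] using Finset.mem_range.1 hi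
    have h1 : ((p i).map (algebraMap ℂ M) * (C (algebraMap ℂ M b0) + C f' * X) ^ i).coeff
        ((k - i) + i) = _ := coeff_mul_add_eq_of_natDegree_le (hdegi i hi') (hpow i)
    have h2 : ((C (algebraMap ℂ M b0) + C f' * X : M[X]) ^ i).coeff (i * 1) = f' ^ i := by
      rw [coeff_pow_of_natDegree_le hlin, hlinc]
    rw [Nat.sub_add_cancel hi'] at h1
    rw [mul_one] at h2
    rw [h1, h2, coeff_map]
  have hQ : (∑ i ∈ Finset.range (k + 1), C ((p i).coeff (k - i)) * X ^ i : ℂ[X]) ≠ 0 := by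
    intro h
    have := congrArg (fun q : ℂ[X] => q.coeff k) h
    simp [coeff_C_mul, coeff_X_pow, hpk] at this
  have hf't : Transcendental ℂ f' := by
    intro h
    apply hf
    have := h.algebraMap (A := E)
    simpa [hf'f] using this
  have hGk0 : G.coeff k ≠ 0 := by
    rw [hGk]
    intro h
    exact hQ ((transcendental_iff.1 hf't) _ h)
  obtain ⟨P, hP⟩ := X_dvd_iff.2 hG0
  have hG : G ≠ 0 := by
    intro h
    rw [h] at hGk0
    simp at hGk0
  have hP0 : P ≠ 0 := by
    rintro rfl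
    apply hG
    rw [hP, mul_zero]
  refine ⟨P, hP0, ?_, ?_⟩
  · have : G.natDegree = P.natDegree + 1 := by
      rw [hP, natDegree_X_mul hP0]
    omega
  · have hGs : aeval s G = 0 := by
      rw [← hrel]
      simp only [G, map_sum, map_mul, map_pow, map_add, aeval_C, aeval_X]
      refine Finset.sum_congr rfl ?_
      intro i _
      rw [aeval_map_algebraMap, hf'f, ← IsScalarTower.algebraMap_apply ℂ M E]
    rw [hP, map_mul, aeval_X] at hGs
    exact (mul_eq_zero.1 hGs).resolve_left hs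

end

section

variable {E : Type} [Field E] [Algebra (RatFunc ℂ) E]

/-- The minimal polynomial of a function with poles bounded by the pole divisor of `s`. -/
theorem minpoly_coeff_bound [Algebra ℂ[X] E] [IsScalarTower ℂ[X] (RatFunc ℂ) E] (b : E)
    (h0 : IsIntegral ℂ[X] b)
    (h1 : IsIntegral OInf (b * (algebraMap (RatFunc ℂ) E RatFunc.X)⁻¹)) (i : ℕ) :
    (minpoly (RatFunc ℂ) b).coeff i = algebraMap ℂ[X] (RatFunc ℂ) ((minpoly ℂ[X] b).coeff i) ∧
    ((minpoly ℂ[X] b).coeff i).natDegree ≤ (minpoly (RatFunc ℂ) b).natDegree - i := by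
  have hK : IsIntegral (RatFunc ℂ) b := h0.tower_top
  have e0 := minpoly.isIntegrallyClosed_eq_field_fractions' (RatFunc ℂ) h0
  have c0 : (minpoly (RatFunc ℂ) b).coeff i
      = algebraMap ℂ[X] (RatFunc ℂ) ((minpoly ℂ[X] b).coeff i) := by
    rw [e0, coeff_map]
  refine ⟨c0, ?_⟩
  set k := (minpoly (RatFunc ℂ) b).natDegree with hk
  have hX : (RatFunc.X : RatFunc ℂ) ≠ 0 := RatFunc.X_ne_zero
  have e1 : minpoly (RatFunc ℂ) (b * (algebraMap (RatFunc ℂ) E RatFunc.X)⁻¹)
      = (minpoly (RatFunc ℂ) b).scaleRoots (RatFunc.X)⁻¹ := by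
    rw [← IsIntegrallyClosed.minpoly_smul (inv_ne_zero hX) hK, Algebra.smul_def, map_inv₀, mul_comm]
  have e2 := minpoly.isIntegrallyClosed_eq_field_fractions' (RatFunc ℂ) h1
  rw [e1] at e2
  have c1 := congrArg (fun q => q.coeff i) e2
  simp only [coeff_scaleRoots, coeff_map, c0] at c1
  have hmem : ((minpoly OInf (b * (algebraMap (RatFunc ℂ) E RatFunc.X)⁻¹)).coeff i :
      RatFunc ℂ).intDegree ≤ 0 := ((minpoly OInf _).coeff i).2
  by_cases hz : (minpoly ℂ[X] b).coeff i = 0
  · rw [hz]; simp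
  have hz' : algebraMap ℂ[X] (RatFunc ℂ) ((minpoly ℂ[X] b).coeff i) ≠ 0 := by
    simpa using hz
  have c2 : (algebraMap ℂ[X] (RatFunc ℂ) ((minpoly ℂ[X] b).coeff i) *
      (RatFunc.X)⁻¹ ^ (k - i)).intDegree ≤ 0 := by
    rw [c1]
    exact hmem
  have hXi : ∀ n : ℕ, ((RatFunc.X : RatFunc ℂ)⁻¹ ^ n).intDegree = - (n : ℤ) := by
    intro n
    induction n with
    | zero => simp
    | succ n ih =>
      rw [pow_succ, RatFunc.intDegree_mul (pow_ne_zero _ (inv_ne_zero hX)) (inv_ne_zero hX), ih,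
        RatFunc.intDegree_inv, RatFunc.intDegree_X]
      push_cast
      ring
  rw [RatFunc.intDegree_mul hz' (pow_ne_zero _ (inv_ne_zero hX)), hXi,
    RatFunc.intDegree_polynomial] at c2
  omega

theorem algebraMap_eq_aeval [Algebra ℂ E] [Algebra ℂ[X] E] [IsScalarTower ℂ[X] (RatFunc ℂ) E]
    [IsScalarTower ℂ (RatFunc ℂ) E] (p : ℂ[X]) :
    algebraMap ℂ[X] E p = aeval (algebraMap (RatFunc ℂ) E RatFunc.X) p := by
  rw [IsScalarTower.algebraMap_apply ℂ[X] (RatFunc ℂ) E, Polynomial.aeval_algebraMap_apply]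
  congr 1
  rw [← RatFunc.algebraMap_X, Polynomial.aeval_algebraMap_apply, aeval_X_left_apply]

theorem sum_eq_zero_of_minpoly [Algebra ℂ E] [Algebra ℂ[X] E] [IsScalarTower ℂ[X] (RatFunc ℂ) E]
    [IsScalarTower ℂ (RatFunc ℂ) E] (b : E) (k : ℕ) (hk : (minpoly ℂ[X] b).natDegree = k) :
    ∑ i ∈ Finset.range (k + 1),
      aeval (algebraMap (RatFunc ℂ) E RatFunc.X) ((minpoly ℂ[X] b).coeff i) * b ^ i = 0 := by
  have h := minpoly.aeval ℂ[X] b
  rw [aeval_eq_sum_range, hk] at h
  rw [← h]
  refine Finset.sum_congr rfl ?_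
  intro i _
  rw [Algebra.smul_def, algebraMap_eq_aeval]

/-- The field generated over `ℂ(s)` by `b` is the field generated over `ℂ(f)` by `s`. -/
theorem adjoin_eq [Algebra ℂ E] [Algebra ℂ[X] E] [IsScalarTower ℂ[X] (RatFunc ℂ) E]
    [IsScalarTower ℂ (RatFunc ℂ) E] (b f : E) (b0 : ℂ)
    (hbf : b = algebraMap ℂ E b0 + f * algebraMap (RatFunc ℂ) E RatFunc.X) :
    (IntermediateField.adjoin (RatFunc ℂ) {b}).restrictScalars ℂ =
      (IntermediateField.adjoin (IntermediateField.adjoin ℂ {f})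
        {algebraMap (RatFunc ℂ) E RatFunc.X}).restrictScalars ℂ := by
  set S : E := algebraMap (RatFunc ℂ) E RatFunc.X with hS
  have hS0 : S ≠ 0 := by
    rw [hS, Ne, FaithfulSMul.algebraMap_eq_zero_iff]
    exact RatFunc.X_ne_zero
  rw [IntermediateField.adjoin_adjoin_left]
  set N2 := IntermediateField.adjoin ℂ ({f} ∪ {S}) with hN2
  have hSN : S ∈ N2 := IntermediateField.subset_adjoin _ _ (Or.inr rfl)
  have hfN : f ∈ N2 := IntermediateField.subset_adjoin _ _ (Or.inl rfl)
  have hbN : b ∈ N2 := by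
    rw [hbf]
    exact N2.add_mem (N2.algebraMap_mem _) (N2.mul_mem hfN hSN)
  have hp : ∀ p : ℂ[X], algebraMap (RatFunc ℂ) E (algebraMap ℂ[X] (RatFunc ℂ) p) ∈ N2 := by
    intro p
    rw [← IsScalarTower.algebraMap_apply ℂ[X] (RatFunc ℂ) E, algebraMap_eq_aeval, ← hS]
    have h := IntermediateField.aeval_coe N2 (⟨S, hSN⟩ : N2) p
    exact h ▸ (aeval (⟨S, hSN⟩ : N2) p).2
  have hr : ∀ r : RatFunc ℂ, algebraMap (RatFunc ℂ) E r ∈ N2.toSubfield := by
    intro r
    rw [← RatFunc.num_div_denom r, map_div₀]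
    exact N2.div_mem (hp _) (hp _)
  apply le_antisymm
  · intro x hx
    have : IntermediateField.adjoin (RatFunc ℂ) {b} ≤
        Subfield.toIntermediateField N2.toSubfield hr := by
      rw [IntermediateField.adjoin_le_iff]
      intro y hy
      rw [Set.mem_singleton_iff] at hy
      subst hy
      exact hbN
    exact this hx
  · rw [hN2, IntermediateField.adjoin_le_iff]
    have hb' : b ∈ IntermediateField.adjoin (RatFunc ℂ) {b} :=
      IntermediateField.mem_adjoin_simple_self _ _
    have hS' : S ∈ IntermediateField.adjoin (RatFunc ℂ) {b} :=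
      (IntermediateField.adjoin (RatFunc ℂ) {b}).algebraMap_mem _
    have hc' : algebraMap ℂ E b0 ∈ IntermediateField.adjoin (RatFunc ℂ) {b} := by
      rw [IsScalarTower.algebraMap_apply ℂ (RatFunc ℂ) E]
      exact (IntermediateField.adjoin (RatFunc ℂ) {b}).algebraMap_mem _
    rintro y (hy | hy)
    · rw [Set.mem_singleton_iff] at hy
      subst hy
      have : y = (b - algebraMap ℂ E b0) / S := by
        rw [hbf]
        field_simp
        ring
      show y ∈ IntermediateField.adjoin (RatFunc ℂ) {b}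
      rw [this]
      exact div_mem (sub_mem hb' hc') hS'
    · rw [Set.mem_singleton_iff] at hy
      subst hy
      exact hS'

/-- **Functions of minimal degree.** -/
theorem minDeg [Algebra ℂ E] [Algebra ℂ[X] E] [IsScalarTower ℂ[X] (RatFunc ℂ) E]
    [IsScalarTower ℂ (RatFunc ℂ) E] [FiniteDimensional (RatFunc ℂ) E] (b : E)
    (h0 : IsIntegral ℂ[X] b)
    (h1 : IsIntegral OInf (b * (algebraMap (RatFunc ℂ) E RatFunc.X)⁻¹))
    (hb : b ∉ Set.range (algebraMap (RatFunc ℂ) E)) :
    ∃ f : E, Transcendental ℂ f ∧ 0 < Module.finrank (IntermediateField.adjoin ℂ {f}) E ∧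
      Module.finrank (IntermediateField.adjoin ℂ {f}) E < Module.finrank (RatFunc ℂ) E := by
  classical
  set S : E := algebraMap (RatFunc ℂ) E RatFunc.X with hS
  have hS0 : S ≠ 0 := by
    rw [hS, Ne, FaithfulSMul.algebraMap_eq_zero_iff]
    exact RatFunc.X_ne_zero
  have hK : IsIntegral (RatFunc ℂ) b := h0.tower_top
  set k := (minpoly (RatFunc ℂ) b).natDegree with hk
  have hkpos : 0 < k := minpoly.natDegree_pos hK
  have hbd := minpoly_coeff_bound b h0 h1
  have hmon : (minpoly ℂ[X] b).Monic := minpoly.monic h0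
  have hk' : (minpoly ℂ[X] b).natDegree = k := by
    rw [hk, minpoly.isIntegrallyClosed_eq_field_fractions' (RatFunc ℂ) h0, hmon.natDegree_map]
  have hrel := sum_eq_zero_of_minpoly b k hk'
  -- a point of the curve over `s = 0`
  let q : ℂ[X] := (minpoly ℂ[X] b).map (evalRingHom 0)
  have hqmon : q.Monic := hmon.map _
  have hqdeg : q.natDegree = k := by
    rw [hmon.natDegree_map, hk']
  obtain ⟨b0, hb0⟩ := IsAlgClosed.exists_root q (by
    rw [Polynomial.degree_eq_natDegree hqmon.ne_zero, hqdeg]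
    exact_mod_cast hkpos.ne')
  have hrel0 : ∑ i ∈ Finset.range (k + 1), ((minpoly ℂ[X] b).coeff i).eval 0 * b0 ^ i = 0 := by
    rw [IsRoot.def, eval_eq_sum_range, hqdeg] at hb0
    refine (Finset.sum_congr rfl ?_).trans hb0
    intro i _
    simp only [q, coeff_map, coe_evalRingHom]
  let f : E := (b - algebraMap ℂ E b0) / S
  have hbf : b = algebraMap ℂ E b0 + f * S := by
    simp only [f]
    field_simp
    ring
  have hf : Transcendental ℂ f := by
    intro halg
    have hint : IsIntegral ℂ f := halg.isIntegral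
    obtain ⟨c, hc⟩ := minpoly.mem_range_of_degree_eq_one ℂ f
      (IsAlgClosed.degree_eq_one_of_irreducible ℂ (minpoly.irreducible hint))
    apply hb
    refine ⟨algebraMap ℂ (RatFunc ℂ) b0 + algebraMap ℂ (RatFunc ℂ) c * RatFunc.X, ?_⟩
    rw [map_add, map_mul, ← IsScalarTower.algebraMap_apply, ← IsScalarTower.algebraMap_apply, hc,
      ← hS, ← hbf]
  have hrel' : ∑ i ∈ Finset.range (k + 1),
      aeval S ((minpoly ℂ[X] b).coeff i) * (algebraMap ℂ E b0 + f * S) ^ i = 0 := by
    rw [← hbf]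
    exact hrel
  have hpk : (minpoly ℂ[X] b).coeff k = 1 := by
    rw [← hk']
    exact hmon.coeff_natDegree
  obtain ⟨P, hP0, hPk, hPS⟩ := minDeg_core S f k b0 (fun i => (minpoly ℂ[X] b).coeff i)
    (fun i _ => (hbd i).2) hpk hrel0 hrel' hf hS0
  -- degrees
  let M := IntermediateField.adjoin ℂ {f}
  have hMS : IsIntegral M S := by
    have : IsAlgebraic M S := ⟨P, hP0, hPS⟩
    exact this.isIntegral
  have hdS : (minpoly M S).natDegree + 1 ≤ k := by
    have := Polynomial.natDegree_le_of_dvd (minpoly.dvd M S hPS) hP0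
    omega
  have t1 : Module.finrank (RatFunc ℂ) (IntermediateField.adjoin (RatFunc ℂ) {b}) *
      Module.finrank (IntermediateField.adjoin (RatFunc ℂ) {b}) E =
      Module.finrank (RatFunc ℂ) E := Module.finrank_mul_finrank _ _ _
  have t2 : Module.finrank M (IntermediateField.adjoin M {S}) *
      Module.finrank (IntermediateField.adjoin M {S}) E =
      Module.finrank M E := Module.finrank_mul_finrank _ _ _
  rw [IntermediateField.adjoin.finrank hK, ← hk] at t1
  rw [IntermediateField.adjoin.finrank hMS] at t2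
  have t3 : Module.finrank (IntermediateField.adjoin (RatFunc ℂ) {b}) E =
      Module.finrank (IntermediateField.adjoin M {S}) E := by
    have e := adjoin_eq b f b0 hbf
    have : ∀ N1 N2 : IntermediateField ℂ E, N1 = N2 →
        Module.finrank N1 E = Module.finrank N2 E := by
      rintro N1 N2 rfl
      rfl
    exact this _ _ e
  have hEpos : 0 < Module.finrank (RatFunc ℂ) E := Module.finrank_pos
  have hposb : 0 < Module.finrank (IntermediateField.adjoin (RatFunc ℂ) {b}) E := by
    rcases Nat.eq_zero_or_pos (Module.finrank (IntermediateField.adjoin (RatFunc ℂ) {b}) E) with h | h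
    · rw [h, mul_zero] at t1
      omega
    · exact h
  have hdpos : 0 < (minpoly M S).natDegree := minpoly.natDegree_pos hMS
  refine ⟨f, hf, ?_, ?_⟩
  · rw [← t2, ← t3]
    exact Nat.mul_pos hdpos hposb
  · rw [← t2, ← t1, ← t3]
    exact Nat.mul_lt_mul_of_pos_right (by omega) hposb

end

/-- Integrality over a subring all of whose elements come from `R`. -/
theorem isIntegral_of_range {R E : Type*} [CommRing R] [Field E] [Algebra R E]
    {A : Type*} [CommRing A] [Algebra A E] (hA : ∀ a : A, ∃ r : R, algebraMap R E r = algebraMap A E a)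
    {x : E} (hx : IsIntegral A x) : IsIntegral R x := by
  obtain ⟨p, hp, hpx⟩ := hx
  have hl : p.map (algebraMap A E) ∈ lifts (algebraMap R E) := by
    rw [lifts_iff_coeff_lifts]
    intro n
    rw [coeff_map]
    obtain ⟨r, hr⟩ := hA (p.coeff n)
    exact ⟨r, hr⟩
  obtain ⟨q, hq, _, hqm⟩ := lifts_and_natDegree_eq_and_monic hl (hp.map _)
  refine ⟨q, hqm, ?_⟩
  rw [← eval_map, hq, eval_map]
  exact hpx

/-- The embedding of the rational functions given by a transcendental element. -/
def ratEmb {E : Type} [Field E] [Algebra ℂ E] (s : E) (hs : Transcendental ℂ s) :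
    RatFunc ℂ →ₐ[ℂ] E :=
  RatFunc.liftAlgHom (aeval s) (by
    intro p hp
    rw [Submonoid.mem_comap, mem_nonZeroDivisors_iff_ne_zero]
    intro h
    exact (mem_nonZeroDivisors_iff_ne_zero.1 hp) ((transcendental_iff.1 hs) p h))

theorem ratEmb_poly {E : Type} [Field E] [Algebra ℂ E] (s : E) (hs : Transcendental ℂ s)
    (p : ℂ[X]) : ratEmb s hs (algebraMap ℂ[X] (RatFunc ℂ) p) = aeval s p := by
  have h := RatFunc.liftAlgHom_apply_div (φ := (aeval s : ℂ[X] →ₐ[ℂ] E)) (hφ := by
    intro p hp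
    rw [Submonoid.mem_comap, mem_nonZeroDivisors_iff_ne_zero]
    intro h
    exact (mem_nonZeroDivisors_iff_ne_zero.1 hp) ((transcendental_iff.1 hs) p h)) p 1
  simp only [map_one, div_one] at h
  exact h

theorem ratEmb_X {E : Type} [Field E] [Algebra ℂ E] (s : E) (hs : Transcendental ℂ s) :
    ratEmb s hs RatFunc.X = s := by
  rw [← RatFunc.algebraMap_X, ratEmb_poly, aeval_X]

theorem ratEmb_range {E : Type} [Field E] [Algebra ℂ E] (s : E) (hs : Transcendental ℂ s)
    (y : E) : y ∈ IntermediateField.adjoin ℂ {s} ↔ ∃ r, ratEmb s hs r = y := by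
  constructor
  · intro hy
    obtain ⟨p, q, hpq⟩ := (IntermediateField.mem_adjoin_simple_iff ℂ y).1 hy
    refine ⟨algebraMap ℂ[X] (RatFunc ℂ) p / algebraMap ℂ[X] (RatFunc ℂ) q, ?_⟩
    rw [map_div₀, ratEmb_poly, ratEmb_poly, hpq]
  · rintro ⟨r, rfl⟩
    rw [IntermediateField.mem_adjoin_simple_iff]
    refine ⟨r.num, r.denom, ?_⟩
    conv_lhs => rw [← RatFunc.num_div_denom r]
    rw [map_div₀, ratEmb_poly, ratEmb_poly]

/-- **Functions of minimal degree**, intrinsic form. -/
theorem minDeg' {E : Type} [Field E] [Algebra ℂ E] (s b : E) (hs : Transcendental ℂ s)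
    [FiniteDimensional (IntermediateField.adjoin ℂ {s}) E]
    (h0 : IsIntegral (Algebra.adjoin ℂ {s}) b)
    (h1 : IsIntegral (Algebra.adjoin ℂ {s⁻¹}) (b * s⁻¹))
    (hb : b ∉ IntermediateField.adjoin ℂ {s}) :
    ∃ f : E, Transcendental ℂ f ∧ 0 < Module.finrank (IntermediateField.adjoin ℂ {f}) E ∧
      Module.finrank (IntermediateField.adjoin ℂ {f}) E <
        Module.finrank (IntermediateField.adjoin ℂ {s}) E := by
  classical
  let algR : Algebra (RatFunc ℂ) E := (ratEmb s hs).toRingHom.toAlgebra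
  let algP : Algebra ℂ[X] E := (aeval s : ℂ[X] →ₐ[ℂ] E).toRingHom.toAlgebra
  have mapR : ∀ r, algebraMap (RatFunc ℂ) E r = ratEmb s hs r := fun _ => rfl
  have mapP : ∀ p, algebraMap ℂ[X] E p = aeval s p := fun _ => rfl
  have t1 : IsScalarTower ℂ[X] (RatFunc ℂ) E := IsScalarTower.of_algebraMap_eq (by
    intro p
    rw [mapR, mapP, ratEmb_poly])
  have t2 : IsScalarTower ℂ (RatFunc ℂ) E := IsScalarTower.of_algebraMap_eq (by
    intro c
    rw [mapR, AlgHom.commutes])
  have hX : algebraMap (RatFunc ℂ) E RatFunc.X = s := by rw [mapR, ratEmb_X]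
  -- the two fields are the same
  let K := IntermediateField.adjoin ℂ {s}
  let j : RatFunc ℂ →+* K := (ratEmb s hs).toRingHom.codRestrict K
    (fun r => (ratEmb_range s hs _).2 ⟨r, rfl⟩)
  have hj : ∀ r, algebraMap K E (j r) = algebraMap (RatFunc ℂ) E r := fun r => rfl
  have hjb : Function.Bijective j := by
    refine ⟨j.injective, ?_⟩
    intro y
    obtain ⟨r, hr⟩ := (ratEmb_range s hs (y : E)).1 y.2
    exact ⟨r, Subtype.ext hr⟩
  let e : RatFunc ℂ ≃+* K := RingEquiv.ofBijective j hjb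
  have hfin : Module.finrank (RatFunc ℂ) E = Module.finrank K E := by
    refine Algebra.finrank_eq_of_equiv_equiv e (RingEquiv.refl E) ?_
    ext r
    exact hj r
  have : FiniteDimensional (RatFunc ℂ) E := by
    refine Module.finite_of_finrank_pos ?_
    rw [hfin]
    exact Module.finrank_pos
  have h0' : IsIntegral ℂ[X] b := by
    refine isIntegral_of_range (A := Algebra.adjoin ℂ {s}) ?_ h0
    intro a
    obtain ⟨p, hp⟩ : (a : E) ∈ (aeval s : ℂ[X] →ₐ[ℂ] E).range := by
      rw [← Algebra.adjoin_singleton_eq_range_aeval]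
      exact a.2
    exact ⟨p, hp⟩
  have h1' : IsIntegral OInf (b * (algebraMap (RatFunc ℂ) E RatFunc.X)⁻¹) := by
    rw [hX]
    refine isIntegral_of_range (A := Algebra.adjoin ℂ {s⁻¹}) ?_ h1
    intro a
    obtain ⟨p, hp⟩ : (a : E) ∈ (aeval s⁻¹ : ℂ[X] →ₐ[ℂ] E).range := by
      rw [← Algebra.adjoin_singleton_eq_range_aeval]
      exact a.2
    have hmem : (aeval (RatFunc.X⁻¹ : RatFunc ℂ) p) ∈ OInf := by
      rw [aeval_eq_sum_range]
      refine sum_mem ?_
      intro i _
      have hx : (RatFunc.X⁻¹ : RatFunc ℂ) ∈ OInf := by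
        rw [mem_OInf, RatFunc.intDegree_inv, RatFunc.intDegree_X]
        norm_num
      have hc : (algebraMap ℂ (RatFunc ℂ) (p.coeff i)) ∈ OInf := by
        rw [mem_OInf, RatFunc.algebraMap_eq_C, RatFunc.intDegree_C]
      rw [Algebra.smul_def]
      exact mul_mem hc (pow_mem hx i)
    refine ⟨⟨_, hmem⟩, ?_⟩
    have e1 : algebraMap OInf E ⟨_, hmem⟩ =
        algebraMap (RatFunc ℂ) E (aeval (RatFunc.X⁻¹ : RatFunc ℂ) p) := rfl
    rw [e1, ← Polynomial.aeval_algebraMap_apply, map_inv₀, hX]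
    exact hp
  have hb' : b ∉ Set.range (algebraMap (RatFunc ℂ) E) := by
    rintro ⟨r, hr⟩
    exact hb ((ratEmb_range s hs b).2 ⟨r, hr⟩)
  have := minDeg b h0' h1' hb'
  rw [hfin] at this
  exact this

end

end LCY
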